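import Pool.Agent.H355R3.UF.Stmts

set_option autoImplicit false

/-! Task K of project H355-UF: thin groups. -/

namespace Pool.Agent.H853R3.UF.K

open H355R3 RegularWreathProduct

theorem alt {e : ℕ} {C D : Formation} (hNP : NilPow e (C * D)) {T : Type} [Group T] [Finite T]
    [IsSimpleGroup T] (hT : C.Mem T) {S : Type} [Group S] [Finite S] [IsSimpleGroup S]
    {K K₁ : Type} [Group K] [Finite K] [Group K₁] [Finite K₁] (f : K →* K₁)
    (hf : Function.Surjective f) (x : K₁) (hx : x ^ e ≠ 1)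
    (hS : D.Mem (RegularWreathProduct S K)) :
    ∃ p : ℕ, p.Prime ∧ Nat.card T = p ∧ Nat.card S = p := by
  have h1 : (C * D).Mem (RegularWreathProduct T (RegularWreathProduct S K)) :=
    wreath_mem C D hT hS
  have h2 := hNP _ h1
  rcases alt_lemma e h2 with h | h
  · exfalso
    apply hx
    obtain ⟨k, rfl⟩ := hf x
    obtain ⟨u, hu⟩ := (rightHom_surj : Function.Surjective
      (rightHom : RegularWreathProduct S K →* K)) k
    rw [← hu, ← map_pow, ← map_pow, h u, map_one, map_one]
  · exact h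

theorem taskK : H355R3.UF.TaskK := by
  intro hQ e C D he hC hNP hV
  by_cases hexp : ∀ (X : Type) [Group X] [Finite X], D.Mem X → ∀ x : X, x ^ e = 1
  · -- bounded exponent
    set S : Set ℕ := {n | ∃ (X : Type) (_ : Group X) (_ : Finite X) (_ : D.Mem X) (x : X),
      orderOf x = n} with hS
    have hne : S.Nonempty := by
      obtain ⟨X, i1, i2, hX⟩ := D.exists_mem
      exact ⟨orderOf (1 : X), X, i1, i2, hX, 1, rfl⟩
    have hbdd : BddAbove S := by
      refine ⟨e, ?_⟩
      rintro n ⟨X, i1, i2, hX, x, rfl⟩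
      exact Nat.le_of_dvd he (orderOf_dvd_of_pow_eq_one (hexp X hX x))
    obtain ⟨K₀, j1, j2, hK₀, x₀, hx₀⟩ := Nat.sSup_mem hne hbdd
    refine ⟨K₀, j1, j2, hK₀, ?_⟩
    intro K _ _ f hf hK P _ _ hP
    by_contra hns
    have : Nontrivial P := not_subsingleton_iff_nontrivial.1 hns
    obtain ⟨k, hk⟩ := hf x₀
    obtain ⟨w, hw⟩ := exists_orderOf_wreath (T := P) k
    have h1 : orderOf w ≤ sSup S := le_csSup hbdd ⟨_, _, _, hP, w, rfl⟩
    have h2 : orderOf x₀ ∣ orderOf k := by
      rw [← hk]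
      exact orderOf_map_dvd f k
    have hkpos : 0 < orderOf k := orderOf_pos k
    have h3 := Nat.le_of_dvd hkpos h2
    omega
  · push Not at hexp
    obtain ⟨K₁, i1, i2, hK₁, x, hx⟩ := hexp
    obtain ⟨T, t1, t2, t3, hT⟩ := exists_simple_mem C hC
    by_cases hTp : (Nat.card T).Prime
    · -- `|T| = p`
      have hfact : Fact (Nat.card T).Prime := ⟨hTp⟩
      obtain ⟨V, v1, v2, hVD, hVn⟩ := hV (Nat.card T)
      have hK₀ : D.Mem (K₁ × V) := by
        refine D.mem_of_two (MonoidHom.fst K₁ V) (MonoidHom.snd K₁ V) ?_ ?_ ?_ hK₁ hVD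
        · intro a
          exact ⟨(a, 1), rfl⟩
        · intro a
          exact ⟨(1, a), rfl⟩
        · rintro ⟨a, b⟩ h1 h2
          exact Prod.ext h1 h2
      refine ⟨K₁ × V, inferInstance, inferInstance, hK₀, ?_⟩
      intro K _ _ f hf hK P _ _ hP
      by_contra hns
      have : Nontrivial P := not_subsingleton_iff_nontrivial.1 hns
      obtain ⟨S, s1, s2, s3, g, hg⟩ := exists_simple_quotient _ P le_rfl
      have hSK : D.Mem (RegularWreathProduct S K) :=
        D.mem_of_surjective (mapLeft g) (mapLeft_surj g hg) hP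
      have hfst : Function.Surjective (MonoidHom.fst K₁ V) := fun a => ⟨(a, 1), rfl⟩
      have hsnd : Function.Surjective (MonoidHom.snd K₁ V) := fun a => ⟨(1, a), rfl⟩
      obtain ⟨p, hp, hTc, hSc⟩ := alt hNP hT ((MonoidHom.fst K₁ V).comp f) (hfst.comp hf) x hx hSK
      obtain ⟨eq⟩ := nonempty_equiv_Zp (p := Nat.card T) S (hSc.trans hTc.symm)
      have hZK : D.Mem (RegularWreathProduct (Zp (Nat.card T)) K) :=
        D.mem_of_surjective (mapLeft eq.toMonoidHom) (mapLeft_surj _ eq.surjective) hSK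
      obtain ⟨q, hq⟩ := hQ (Nat.card T) K V ((MonoidHom.snd K₁ V).comp f) (hsnd.comp hf)
      exact hVn (D.mem_of_surjective q hq hZK)
    · refine ⟨K₁, i1, i2, hK₁, ?_⟩
      intro K _ _ f hf hK P _ _ hP
      by_contra hns
      have : Nontrivial P := not_subsingleton_iff_nontrivial.1 hns
      obtain ⟨S, s1, s2, s3, g, hg⟩ := exists_simple_quotient _ P le_rfl
      have hSK : D.Mem (RegularWreathProduct S K) :=
        D.mem_of_surjective (mapLeft g) (mapLeft_surj g hg) hP
      obtain ⟨p, hp, hTc, hSc⟩ := alt hNP hT f hf x hx hSK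
      exact hTp (hTc ▸ hp)

end Pool.Agent.H853R3.UF.K

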